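import Pool.Agent.H11.KT.Targets

/-!
# Row F_SB of the board elk_modules: systems of projections (helper52)

`G` acts faithfully and irreducibly on the finite group `V`. If an abelian normal subgroup `A` has
a nontrivial element with a nonzero fixed vector then the fixed spaces of the maximal subgroups of
`A` with nonzero fixed vectors form a system of imprimitivity.
-/

set_option autoImplicit false

open scoped commutatorElement

namespace Pool.Agent.H52.KT

open Pool.Agent.H11.EL Pool.Agent.H11.KT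

section

variable {G V : Type} [Group G] [AddCommGroup V] [DistribMulAction G V]

/-- the vectors which are fixed by `B` -/
def Fx (V : Type) [AddCommGroup V] [DistribMulAction G V] (B : Subgroup G) : AddSubgroup V where
  carrier := {v | ∀ b ∈ B, b • v = v}
  zero_mem' := fun b _ => smul_zero b
  add_mem' := fun {x y} hx hy b hb => by rw [smul_add, hx b hb, hy b hb]
  neg_mem' := fun {x} hx b hb => by rw [smul_neg, hx b hb]

theorem mem_Fx {B : Subgroup G} {v : V} : v ∈ Fx V B ↔ ∀ b ∈ B, b • v = v := Iff.rfl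

/-- maximal among the subgroups of `A` with nonzero fixed vectors -/
def Mx (V : Type) [AddCommGroup V] [DistribMulAction G V] (A B : Subgroup G) : Prop :=
  (B ≤ A ∧ ∃ v ∈ Fx V B, v ≠ 0) ∧ ∀ C ≤ A, B ≤ C → (∃ v ∈ Fx V C, v ≠ 0) → C = B

/-- the conjugate subgroup -/
def cB (g : G) (B : Subgroup G) : Subgroup G := B.comap (MulAut.conj g⁻¹).toMonoidHom

theorem mem_cB {g x : G} {B : Subgroup G} : x ∈ cB g B ↔ g⁻¹ * x * g ∈ B := by
  unfold cB
  rw [Subgroup.mem_comap]
  simp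

theorem cB_one (B : Subgroup G) : cB 1 B = B := by
  ext x
  rw [mem_cB]
  simp

theorem cB_mul (g h : G) (B : Subgroup G) : cB (g * h) B = cB g (cB h B) := by
  ext x
  rw [mem_cB, mem_cB, mem_cB]
  have e : (g * h)⁻¹ * x * (g * h) = h⁻¹ * (g⁻¹ * x * g) * h := by group
  rw [e]

theorem smul_mem_Fx {B : Subgroup G} {v : V} (g : G) (hv : v ∈ Fx V B) : g • v ∈ Fx V (cB g B) := by
  intro x hx
  have h1 := hv _ (mem_cB.1 hx)
  rw [← mul_smul]
  have e : x * g = g * (g⁻¹ * x * g) := by group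
  rw [e, mul_smul, h1]

theorem cB_mono {g : G} {B C : Subgroup G} (h : B ≤ C) : cB g B ≤ cB g C := fun x hx =>
  mem_cB.2 (h (mem_cB.1 hx))

theorem cB_le {A : Subgroup G} (hA : A.Normal) {g : G} {B : Subgroup G} (h : B ≤ A) :
    cB g B ≤ A := by
  intro x hx
  have h1 := hA.conj_mem _ (h (mem_cB.1 hx)) g
  have e : g * (g⁻¹ * x * g) * g⁻¹ = x := by group
  rwa [e] at h1

theorem Mx_cB {A : Subgroup G} (hA : A.Normal) {B : Subgroup G} (h : Mx V A B) (g : G) :
    Mx V A (cB g B) := by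
  obtain ⟨⟨h1, v, hv, hv0⟩, h2⟩ := h
  refine ⟨⟨cB_le hA h1, g • v, smul_mem_Fx g hv, fun h3 => hv0 ?_⟩, ?_⟩
  · rwa [smul_eq_zero_iff_eq] at h3
  · rintro C hCA hBC ⟨w, hw, hw0⟩
    have h3 : B ≤ cB g⁻¹ C := by
      have h4 : cB g⁻¹ (cB g B) = B := by rw [← cB_mul, inv_mul_cancel, cB_one]
      rw [← h4]
      exact cB_mono hBC
    have h5 := h2 (cB g⁻¹ C) (cB_le hA hCA) h3 ⟨g⁻¹ • w, smul_mem_Fx g⁻¹ hw, fun h3 => hw0 (by
      rwa [smul_eq_zero_iff_eq] at h3)⟩
    rw [← h5, ← cB_mul, mul_inv_cancel, cB_one]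

/-- two maximal subgroups are separated by an element -/
theorem sep {A B B' : Subgroup G} (h : Mx V A B) (h' : Mx V A B') (hne : B ≠ B') :
    ∃ b ∈ A, (∀ v ∈ Fx V B, b • v = v) ∧ ∀ v ∈ Fx V B', b • v = v → v = 0 := by
  have h1 : ∃ b ∈ B, b ∉ B' := by
    by_contra hc
    push Not at hc
    exact hne (h.2 B' h'.1.1 hc h'.1.2).symm
  obtain ⟨b, hb, hb'⟩ := h1
  refine ⟨b, h.1.1 hb, fun v hv => hv b hb, fun v hv hbv => ?_⟩
  by_contra hv0
  have hle : B' ⊔ Subgroup.zpowers b ≤ MulAction.stabilizer G v := by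
    refine sup_le (fun x hx => ?_) ?_
    · exact MulAction.mem_stabilizer_iff.2 (hv x hx)
    · rw [Subgroup.zpowers_le]
      exact MulAction.mem_stabilizer_iff.2 hbv
  have h2 := h'.2 (B' ⊔ Subgroup.zpowers b)
    (sup_le h'.1.1 (by rw [Subgroup.zpowers_le]; exact h.1.1 hb)) le_sup_left
    ⟨v, fun x hx => MulAction.mem_stabilizer_iff.1 (hle hx), hv0⟩
  apply hb'
  rw [← h2]
  exact (le_sup_right : Subgroup.zpowers b ≤ _) (Subgroup.mem_zpowers b)

/-- the fixed space of a subgroup of `A` is stable under `A` -/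
theorem stab {A B : Subgroup G} (hA : ∀ a ∈ A, ∀ a' ∈ A, a * a' = a' * a) (hB : B ≤ A) {b : G}
    (hb : b ∈ A) {v : V} (hv : v ∈ Fx V B) : b • v ∈ Fx V B := by
  intro x hx
  rw [← mul_smul, hA x (hB hx) b hb, mul_smul, hv x hx]

end

section

variable {G V : Type} [Group G] [AddCommGroup V] [DistribMulAction G V]

/-- the maximal subgroups -/
abbrev Om (V : Type) [AddCommGroup V] [DistribMulAction G V] (A : Subgroup G) : Type :=
  {B : Subgroup G // Mx V A B}

/-- the action by conjugation -/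
def act (V : Type) [AddCommGroup V] [DistribMulAction G V] {A : Subgroup G} (hA : A.Normal) :
    MulAction G (Om V A) where
  smul g B := ⟨cB g B.1, Mx_cB hA B.2 g⟩
  one_smul B := Subtype.ext (cB_one B.1)
  mul_smul g h B := Subtype.ext (cB_mul g h B.1)

/-- the fixed spaces are independent -/
theorem indep {A : Subgroup G} (hA : ∀ a ∈ A, ∀ a' ∈ A, a * a' = a' * a) (I : Finset (Om V A)) :
    ∀ u : Om V A → V, (∀ ω, u ω ∈ Fx V ω.1) → ∑ ω ∈ I, u ω = 0 → ∀ ω ∈ I, u ω = 0 := by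
  classical
  induction I using Finset.induction_on with
  | empty =>
    intro u _ _ ω hω
    exact absurd hω (Finset.notMem_empty ω)
  | insert ω₀ I hω₀ ih =>
    intro u hu hsum
    rw [Finset.sum_insert hω₀] at hsum
    have h1 : ∀ ω ∈ I, u ω = 0 := by
      intro ω hω
      have hne : ω₀.1 ≠ ω.1 := fun h => hω₀ (by rw [Subtype.ext h]; exact hω)
      obtain ⟨b, hbA, hb0, hb⟩ := sep (V := V) ω₀.2 ω.2 hne
      have h2 : ∑ ω ∈ I, (b • u ω - u ω) = 0 := by
        have h3 : b • (u ω₀ + ∑ ω ∈ I, u ω) - (u ω₀ + ∑ ω ∈ I, u ω) = 0 := by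
          rw [hsum, smul_zero, sub_zero]
        rw [smul_add, hb0 _ (hu ω₀), Finset.smul_sum] at h3
        rw [Finset.sum_sub_distrib, ← h3]
        abel
      have h4 := ih (fun ω => b • u ω - u ω)
        (fun ω => (Fx V ω.1).sub_mem (stab hA ω.2.1.1 hbA (hu ω)) (hu ω)) h2 ω hω
      exact hb _ (hu ω) (sub_eq_zero.1 h4)
    have h5 : ∑ ω ∈ I, u ω = 0 := Finset.sum_eq_zero h1
    intro ω hω
    rcases Finset.mem_insert.1 hω with h | h
    · rw [h5, add_zero] at hsum
      rw [h]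
      exact hsum
    · exact h1 ω h

theorem uniq {A : Subgroup G} (hA : ∀ a ∈ A, ∀ a' ∈ A, a * a' = a' * a) [Fintype (Om V A)]
    (u u' : Om V A → V) (hu : ∀ ω, u ω ∈ Fx V ω.1) (hu' : ∀ ω, u' ω ∈ Fx V ω.1)
    (h : ∑ ω, u ω = ∑ ω, u' ω) (ω : Om V A) : u ω = u' ω := by
  have h1 := indep hA Finset.univ (fun ω => u ω - u' ω)
    (fun ω => (Fx V ω.1).sub_mem (hu ω) (hu' ω)) (by rw [Finset.sum_sub_distrib, h, sub_self]) ω
    (Finset.mem_univ _)
  exact sub_eq_zero.1 h1

/-- the sum of the fixed spaces -/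
def rg (V : Type) [AddCommGroup V] [DistribMulAction G V] (A : Subgroup G) [Fintype (Om V A)] :
    AddSubgroup V where
  carrier := {v | ∃ u : Om V A → V, (∀ ω, u ω ∈ Fx V ω.1) ∧ ∑ ω, u ω = v}
  zero_mem' := ⟨fun _ => 0, fun ω => (Fx V ω.1).zero_mem, Finset.sum_const_zero⟩
  add_mem' := by
    rintro x y ⟨u, hu, rfl⟩ ⟨u', hu', rfl⟩
    exact ⟨fun ω => u ω + u' ω, fun ω => (Fx V ω.1).add_mem (hu ω) (hu' ω),
      Finset.sum_add_distrib⟩
  neg_mem' := by
    rintro x ⟨u, hu, rfl⟩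
    exact ⟨fun ω => -u ω, fun ω => (Fx V ω.1).neg_mem (hu ω), Finset.sum_neg_distrib _⟩

theorem move {A : Subgroup G} (hA : A.Normal) [Fintype (Om V A)] (g : G) (u : Om V A → V)
    (hu : ∀ ω, u ω ∈ Fx V ω.1) :
    letI := act V hA
    (∀ ω : Om V A, g • u (g⁻¹ • ω) ∈ Fx V ω.1) ∧ ∑ ω : Om V A, g • u (g⁻¹ • ω) = g • ∑ ω, u ω := by
  letI := act V hA
  constructor
  · intro ω
    have h1 := smul_mem_Fx g (hu (g⁻¹ • ω))
    have h2 : cB g (g⁻¹ • ω).1 = ω.1 := by
      have h3 : g • (g⁻¹ • ω) = ω := smul_inv_smul g ω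
      exact congrArg Subtype.val h3
    rwa [h2] at h1
  · rw [Finset.smul_sum]
    exact Fintype.sum_equiv (MulAction.toPerm g⁻¹) _ _ (fun ω => rfl)

end

/-- Row F_SB. -/
theorem pf_SB : F_SB := by
  classical
  intro G V _ _ _ _ _ hirr
  by_contra hcon
  push Not at hcon
  obtain ⟨hno, A, hA, hab, a, haA, ha1, v₀, hav, hv₀⟩ := hcon
  haveI : Finite G := Finite.of_injective (MulAction.toPermHom G V) MulAction.toPerm_injective
  letI : Fintype (Om V A) := Fintype.ofFinite _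
  letI := act V hA
  -- a maximal subgroup which contains `a`
  obtain ⟨B, haB, hB⟩ := (Set.toFinite {C : Subgroup G | C ≤ A ∧ ∃ v ∈ Fx V C, v ≠ 0}).exists_le_maximal
    (a := Subgroup.zpowers a) ⟨by rw [Subgroup.zpowers_le]; exact haA, v₀, (by
      intro x hx
      have h1 : Subgroup.zpowers a ≤ MulAction.stabilizer G v₀ := by
        rw [Subgroup.zpowers_le]
        exact MulAction.mem_stabilizer_iff.2 hav
      exact MulAction.mem_stabilizer_iff.1 (h1 hx)), hv₀⟩
  have hMx : Mx V A B := ⟨hB.prop, fun C hC hBC hv => le_antisymm (hB.le_of_ge ⟨hC, hv⟩ hBC) hBC⟩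
  have haB' : a ∈ B := haB (Subgroup.mem_zpowers a)
  -- the fixed spaces span
  have hrg : rg V A = ⊤ := by
    refine (hirr.2 (rg V A) ?_).resolve_left ?_
    · rintro g v ⟨u, hu, rfl⟩
      obtain ⟨h1, h2⟩ := move hA g u hu
      exact ⟨_, h1, h2⟩
    · intro h0
      obtain ⟨v, hv, hv0⟩ := hMx.1.2
      have h1 : v ∈ rg V A := ⟨(Pi.single ⟨B, hMx⟩ v : Om V A → V), fun ω => by
        by_cases h : ω = ⟨B, hMx⟩
        · subst h
          rw [Pi.single_eq_same]
          exact hv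
        · rw [Pi.single_eq_of_ne h]
          exact (Fx V ω.1).zero_mem, by
        rw [Finset.sum_pi_single']
        simp⟩
      rw [h0] at h1
      exact hv0 h1
  have hex : ∀ v : V, ∃ u : Om V A → V, (∀ ω, u ω ∈ Fx V ω.1) ∧ ∑ ω, u ω = v := by
    intro v
    have h1 : v ∈ rg V A := by rw [hrg]; exact AddSubgroup.mem_top v
    exact h1
  choose c hc1 hc2 using hex
  have hun : ∀ (v : V) (u : Om V A → V), (∀ ω, u ω ∈ Fx V ω.1) → ∑ ω, u ω = v →
      ∀ ω, c v ω = u ω := fun v u hu hs ω =>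
    uniq hab (c v) u (hc1 v) hu (by rw [hc2, hs]) ω
  have hsingle : ∀ (ω₀ : Om V A) (v : V), v ∈ Fx V ω₀.1 → ∀ ω,
      c v ω = (Pi.single ω₀ v : Om V A → V) ω := by
    intro ω₀ v hv
    apply hun
    · intro ω
      by_cases h : ω = ω₀
      · subst h
        rw [Pi.single_eq_same]
        exact hv
      · rw [Pi.single_eq_of_ne h]
        exact (Fx V ω.1).zero_mem
    · rw [Finset.sum_pi_single']
      simp
  let e : Om V A → V →+ V := fun ω =>
    { toFun := fun v => c v ω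
      map_zero' := hun 0 (fun _ => 0) (fun ω => (Fx V ω.1).zero_mem) Finset.sum_const_zero ω
      map_add' := fun v w => hun (v + w) (fun ω => c v ω + c w ω)
        (fun ω => (Fx V ω.1).add_mem (hc1 v ω) (hc1 w ω))
        (by rw [Finset.sum_add_distrib, hc2, hc2]) ω }
  have he : ∀ ω v, e ω v = c v ω := fun _ _ => rfl
  have hSys : Sys G e := by
    refine ⟨fun v => ?_, fun ω ω' hne v => ?_, fun g ω v => ?_, fun ω => ?_⟩
    · simp only [he]
      exact hc2 v
    · rw [he ω, hsingle ω' (e ω' v) (hc1 v ω') ω, Pi.single_eq_of_ne hne]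
    · obtain ⟨h1, h2⟩ := move hA g (c v) (hc1 v)
      rw [he, he, hun (g • v) _ h1 (by rw [h2, hc2]) (g • ω), inv_smul_smul]
    · obtain ⟨v, hv, hv0⟩ := ω.2.1.2
      refine ⟨v, ?_⟩
      rw [he, hsingle ω v hv ω, Pi.single_eq_same]
      exact hv0
  refine absurd (hno (Om V A) inferInstance inferInstance e hSys) ?_
  rw [not_lt]
  by_contra hcard
  push Not at hcard
  -- only one maximal subgroup: its fixed space is everything
  have hone : ∀ ω ω' : Om V A, ω = ω' := Fintype.card_le_one_iff.1 (by omega)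
  have htop : Fx V B = ⊤ := by
    refine (hirr.2 (Fx V B) ?_).resolve_left ?_
    · intro g v hv
      have h1 := smul_mem_Fx g hv
      have h2 : cB g B = B := congrArg Subtype.val (hone (g • (⟨B, hMx⟩ : Om V A)) ⟨B, hMx⟩)
      rwa [h2] at h1
    · intro h0
      obtain ⟨v, hv, hv0⟩ := hMx.1.2
      rw [h0] at hv
      exact hv0 hv
  apply ha1
  apply eq_of_smul_eq_smul (α := V)
  intro v
  rw [one_smul]
  have h1 : v ∈ Fx V B := by rw [htop]; exact AddSubgroup.mem_top v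
  exact h1 a haB'

end Pool.Agent.H52.KT
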