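import Pool.Agent.H49.KT.Comp
import Pool.Agent.H49.KT.Targets

/-!
Board kt_modules, module OUT: an output of a machine is the content of the output stack of the
simulated run at its halting time.
-/

namespace Pool.Agent.H52.KT

open Turing Function
open Pool.Agent.H49.KT

/-- Mathlib's start configuration is `ini` -/
theorem init_eq (U : BM) (d : List Bool) :
    Turing.initList U.tm (d.map U.inputAlphabet.invFun) = ini U d := by
  unfold Turing.initList ini
  congr 1
  funext k
  by_cases h : k = U.tm.k₀
  · subst h
    simp
  · simp [h]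

/-- a run of Mathlib's machine is a run of `fs` -/
theorem fs_of_steps (U : BM) (n : ℕ) : ∀ (c c' : CF U),
    (flip bind (TM2.step U.tm.m))^[n] (some c) = some c' →
      (fs U)^[n] c = c' ∧ ∀ i < n, ((fs U)^[i] c).l ≠ none := by
  induction n with
  | zero =>
    intro c c' h
    exact ⟨Option.some_injective _ h, fun i hi => absurd hi (Nat.not_lt_zero i)⟩
  | succ n ih =>
    intro c c' h
    rw [Function.iterate_succ_apply] at h
    have h0 : flip bind (TM2.step U.tm.m) (some c) = TM2.step U.tm.m c := rfl
    rw [h0] at h
    have hl : c.l ≠ none := by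
      intro hl
      obtain ⟨l, v, S⟩ := c
      cases hl
      have h1 : TM2.step U.tm.m (⟨none, v, S⟩ : CF U) = none := rfl
      rw [h1, steps_none] at h
      exact absurd h (by simp)
    cases h1 : TM2.step U.tm.m c with
    | none =>
      rw [h1, steps_none] at h
      exact absurd h (by simp)
    | some c₁ =>
      rw [h1] at h
      obtain ⟨h2, h3⟩ := ih c₁ c' h
      have h4 : fs U c = c₁ := by
        unfold fs
        rw [h1]
        rfl
      refine ⟨by rw [Function.iterate_succ_apply, h4, h2], fun i hi => ?_⟩
      cases i with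
      | zero => exact hl
      | succ i =>
        rw [Function.iterate_succ_apply, h4]
        exact h3 i (by omega)

/-- heights along a run -/
theorem height_iter (U : BM) (B : ℕ) (hB : ∀ (c : CF U) (k : U.tm.K),
    ((fs U c).stk k).length ≤ (c.stk k).length + B ∧
      (c.stk k).length ≤ ((fs U c).stk k).length + B) (T : ℕ) (c : CF U) (k : U.tm.K) :
    (((fs U)^[T] c).stk k).length ≤ (c.stk k).length + B * T ∧
      (c.stk k).length ≤ (((fs U)^[T] c).stk k).length + B * T := by
  induction T with
  | zero => simp
  | succ T ih =>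
    rw [Function.iterate_succ_apply']
    have h := hB ((fs U)^[T] c) k
    have h2 : B * (T + 1) = B * T + B := by ring
    rw [h2]
    omega

theorem pf_OUT : T_HT → T_OUT := by
  intro hHT U
  obtain ⟨B, hB⟩ := hHT U
  refine ⟨B, fun d x t h => ?_⟩
  obtain ⟨⟨⟨s, hs⟩, hst⟩⟩ := h
  have h1 : (flip bind (TM2.step U.tm.m))^[s] (some (ini U d)) =
      some (Turing.haltList U.tm (x.map U.outputAlphabet.invFun)) := by
    rw [← init_eq]
    exact hs
  obtain ⟨h2, h3⟩ := fs_of_steps U s _ _ h1
  have h4 : at' U s d = Turing.haltList U.tm (x.map U.outputAlphabet.invFun) := h2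
  have hk1 : (Turing.haltList U.tm (x.map U.outputAlphabet.invFun)).stk U.tm.k₁ =
      x.map U.outputAlphabet.invFun := by
    simp [Turing.haltList]
  have hlen : ∀ k, ((Turing.haltList U.tm (x.map U.outputAlphabet.invFun)).stk k).length ≤
      x.length := by
    intro k
    by_cases hk : k = U.tm.k₁
    · subst hk
      rw [hk1, List.length_map]
    · simp [Turing.haltList, hk]
  have hlen0 : ∀ k, ((ini U d).stk k).length ≤ d.length := by
    intro k
    by_cases hk : k = U.tm.k₀
    · subst hk
      simp [ini]
    · simp [ini, hk]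
  refine ⟨s, hst, ?_, h3, ?_, ?_, ?_⟩
  · rw [h4]
    rfl
  · unfold rawOut
    rw [h4, hk1, List.map_map]
    have : (⇑U.outputAlphabet ∘ U.outputAlphabet.invFun) = id := by
      funext b
      exact U.outputAlphabet.apply_symm_apply b
    rw [this, List.map_id]
  · have h5 := (height_iter U B hB s (ini U d) U.tm.k₀).2
    have h6 : ((ini U d).stk U.tm.k₀).length = d.length := by simp [ini]
    have h7 := hlen U.tm.k₀
    rw [h2] at h5
    omega
  · have h5 := (height_iter U B hB s (ini U d) U.tm.k₁).1
    have h7 := hlen0 U.tm.k₁
    rw [h2, hk1, List.length_map] at h5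
    omega

end Pool.Agent.H52.KT
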